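import Pool.Agent.Y272.TY.Stm2

/-!
# Project TY, part HF (helper571): high frequency parts are negligible almost everywhere
-/

set_option autoImplicit false

open Complex Filter Topology Metric Set MeasureTheory

namespace Pool.Agent.Y571.TY.HF

open Pool.Agent.H712R2 Pool.Agent.H713R2 Pool.Agent.W677.Mar Pool.Agent.Y272.TY

theorem ae_per {Q : ℝ → Prop} (hper : ∀ (θ : ℝ) (m : ℤ), Q (θ + m • (2 * Real.pi)) → Q θ)
    (h : ∀ᵐ θ ∂(volume.restrict (Set.Ioc (0 : ℝ) (2 * Real.pi))), Q θ) : ∀ᵐ θ : ℝ, Q θ := by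
  have h1 : ∀ᵐ θ : ℝ, θ ∈ Set.Ioc (0 : ℝ) (2 * Real.pi) → Q θ :=
    (ae_restrict_iff' measurableSet_Ioc).1 h
  have h2 : ∀ᵐ θ : ℝ, ∀ m : ℤ, θ + m • (2 * Real.pi) ∈ Set.Ioc (0 : ℝ) (2 * Real.pi) →
      Q (θ + m • (2 * Real.pi)) := by
    rw [ae_all_iff]
    intro m
    exact (measurePreserving_add_right volume (m • (2 * Real.pi))).quasiMeasurePreserving.ae h1
  filter_upwards [h2] with θ hθ
  obtain ⟨m, hm, -⟩ := existsUnique_add_zsmul_mem_Ioc Real.two_pi_pos θ 0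
  rw [zero_add] at hm
  exact hper θ m (hθ m hm)

theorem pt_per (r θ : ℝ) (m : ℤ) : pt r (θ + m • (2 * Real.pi)) = pt r θ :=
  (periodic_circleMap 0 r).zsmul m θ

theorem coef_bd {d j t : ℕ} {C : ℝ} (hd : 2 ≤ d) (hC : 0 ≤ C) {a : ℕ → ℂ} {w : ℕ → ℝ}
    (ha : ∀ k < d ^ j, a k = 0)
    (hb : ∀ M : ℕ, ∑ k ∈ Finset.Ico (d ^ (j + M)) (d ^ (j + M + 1)), ‖a k‖ ^ 2 ≤
      C * ((M : ℝ) + 2) / (d : ℝ) ^ M)
    (hw0 : ∀ k, 0 ≤ w k) (hw1 : ∀ k, w k ≤ 1) (hw2 : ∀ k, w k ≤ 4 * k / (d : ℝ) ^ (j + t))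
    (K : ℕ) : ∑ k ∈ Finset.range K, ‖a k‖ ^ 2 * w k ^ 2 ≤
      C * (4 * d + 2) * ((t : ℝ) + 3) ^ 2 / (d : ℝ) ^ t := by
  have hd0 : (0 : ℝ) < d := by
    have : 0 < d := by omega
    exact_mod_cast this
  have hd2 : (2 : ℝ) ≤ d := by exact_mod_cast hd
  have hww : ∀ k, w k ^ 2 ≤ w k := fun k => by
    have := hw0 k
    have := hw1 k
    nlinarith
  -- the blocks
  have blk1 : ∀ M : ℕ, M ≤ t → ∑ k ∈ Finset.Ico (d ^ (j + M)) (d ^ (j + M + 1)),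
      ‖a k‖ ^ 2 * w k ^ 2 ≤ 4 * C * d * ((t : ℝ) + 2) / (d : ℝ) ^ t := by
    intro M hM
    have hMt : (M : ℝ) ≤ t := by exact_mod_cast hM
    calc ∑ k ∈ Finset.Ico (d ^ (j + M)) (d ^ (j + M + 1)), ‖a k‖ ^ 2 * w k ^ 2 ≤
          ∑ k ∈ Finset.Ico (d ^ (j + M)) (d ^ (j + M + 1)),
            ‖a k‖ ^ 2 * (4 * (d : ℝ) ^ (j + M + 1) / (d : ℝ) ^ (j + t)) := by
          apply Finset.sum_le_sum
          intro k hk
          rw [Finset.mem_Ico] at hk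
          apply mul_le_mul_of_nonneg_left _ (sq_nonneg _)
          refine (hww k).trans ((hw2 k).trans ?_)
          have : (k : ℝ) ≤ (d : ℝ) ^ (j + M + 1) := by exact_mod_cast hk.2.le
          gcongr
      _ = (∑ k ∈ Finset.Ico (d ^ (j + M)) (d ^ (j + M + 1)), ‖a k‖ ^ 2) *
            (4 * (d : ℝ) ^ (j + M + 1) / (d : ℝ) ^ (j + t)) := by rw [Finset.sum_mul]
      _ ≤ (C * ((M : ℝ) + 2) / (d : ℝ) ^ M) * (4 * (d : ℝ) ^ (j + M + 1) / (d : ℝ) ^ (j + t)) :=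
          mul_le_mul_of_nonneg_right (hb M) (by positivity)
      _ = 4 * C * d * ((M : ℝ) + 2) / (d : ℝ) ^ t := by
          rw [pow_add, pow_add, pow_add]
          field_simp
      _ ≤ _ := by gcongr
  have blk2 : ∀ M : ℕ, ∑ k ∈ Finset.Ico (d ^ (j + M)) (d ^ (j + M + 1)),
      ‖a k‖ ^ 2 * w k ^ 2 ≤ C * ((2 * (M : ℝ) + 6) / (d : ℝ) ^ M -
        (2 * ((M : ℝ) + 1) + 6) / (d : ℝ) ^ (M + 1)) := by
    intro M
    calc ∑ k ∈ Finset.Ico (d ^ (j + M)) (d ^ (j + M + 1)), ‖a k‖ ^ 2 * w k ^ 2 ≤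
          ∑ k ∈ Finset.Ico (d ^ (j + M)) (d ^ (j + M + 1)), ‖a k‖ ^ 2 := by
          apply Finset.sum_le_sum
          intro k _
          exact mul_le_of_le_one_right (sq_nonneg _) ((hww k).trans (hw1 k))
      _ ≤ C * ((M : ℝ) + 2) / (d : ℝ) ^ M := hb M
      _ = C * (((M : ℝ) + 2) / (d : ℝ) ^ M) := by ring
      _ ≤ _ := by
          apply mul_le_mul_of_nonneg_left _ hC
          rw [pow_succ, le_sub_iff_add_le]
          have h1 : (2 * ((M : ℝ) + 1) + 6) / ((d : ℝ) ^ M * d) ≤ ((M : ℝ) + 4) / (d : ℝ) ^ M := by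
            rw [div_le_div_iff₀ (by positivity) (by positivity)]
            have : 2 * ((M : ℝ) + 1) + 6 ≤ ((M : ℝ) + 4) * d := by nlinarith
            calc (2 * ((M : ℝ) + 1) + 6) * (d : ℝ) ^ M ≤ (((M : ℝ) + 4) * d) * (d : ℝ) ^ M := by
                  gcongr
              _ = _ := by ring
          calc ((M : ℝ) + 2) / (d : ℝ) ^ M + (2 * ((M : ℝ) + 1) + 6) / ((d : ℝ) ^ M * d) ≤
                ((M : ℝ) + 2) / (d : ℝ) ^ M + ((M : ℝ) + 4) / (d : ℝ) ^ M := by linarith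
            _ = (2 * (M : ℝ) + 6) / (d : ℝ) ^ M := by
                rw [← add_div]
                congr 1
                ring
  have hsplit : ∀ m : ℕ, ∑ k ∈ Finset.range (d ^ (j + (m + 1))), ‖a k‖ ^ 2 * w k ^ 2 =
      ∑ k ∈ Finset.range (d ^ (j + m)), ‖a k‖ ^ 2 * w k ^ 2 +
        ∑ k ∈ Finset.Ico (d ^ (j + m)) (d ^ (j + m + 1)), ‖a k‖ ^ 2 * w k ^ 2 := by
    intro m
    rw [Finset.range_eq_Ico, Finset.range_eq_Ico, ← add_assoc]
    rw [Finset.sum_Ico_consecutive _ (Nat.zero_le _) (Nat.pow_le_pow_right (by omega) (by omega))]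
  have hA : ∀ m : ℕ, m ≤ t → ∑ k ∈ Finset.range (d ^ (j + m)), ‖a k‖ ^ 2 * w k ^ 2 ≤
      m * (4 * C * d * ((t : ℝ) + 2) / (d : ℝ) ^ t) := by
    intro m
    induction m with
    | zero =>
      intro _
      rw [add_zero, Nat.cast_zero, zero_mul]
      apply le_of_eq
      apply Finset.sum_eq_zero
      intro k hk
      rw [ha k (Finset.mem_range.1 hk)]
      simp
    | succ m ih =>
      intro hm
      rw [hsplit m]
      have h1 := ih (by omega)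
      have h2 := blk1 m (by omega)
      push_cast
      linarith
  have hB : ∀ u : ℕ, ∑ k ∈ Finset.range (d ^ (j + (t + u))), ‖a k‖ ^ 2 * w k ^ 2 ≤
      t * (4 * C * d * ((t : ℝ) + 2) / (d : ℝ) ^ t) + C * ((2 * (t : ℝ) + 6) / (d : ℝ) ^ t -
        (2 * ((t : ℝ) + u) + 6) / (d : ℝ) ^ (t + u)) := by
    intro u
    induction u with
    | zero =>
      have h1 := hA t le_rfl
      simpa using h1
    | succ u ih =>
      rw [← add_assoc t u 1, hsplit (t + u)]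
      have h2 := blk2 (t + u)
      push_cast at h2 ⊢
      have e : (2 * ((t : ℝ) + ((u : ℝ) + 1)) + 6) = (2 * ((t : ℝ) + u + 1) + 6) := by ring
      rw [e]
      have e2 : t + u + 1 = t + u + 1 := rfl
      linarith
  have hfin : ∑ k ∈ Finset.range (d ^ (j + (t + K))), ‖a k‖ ^ 2 * w k ^ 2 ≤
      C * (4 * d + 2) * ((t : ℝ) + 3) ^ 2 / (d : ℝ) ^ t := by
    refine (hB K).trans ?_
    have h1 : C * ((2 * (t : ℝ) + 6) / (d : ℝ) ^ t - (2 * ((t : ℝ) + K) + 6) / (d : ℝ) ^ (t + K)) ≤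
        C * ((2 * (t : ℝ) + 6) / (d : ℝ) ^ t) := by
      apply mul_le_mul_of_nonneg_left _ hC
      have : 0 ≤ (2 * ((t : ℝ) + K) + 6) / (d : ℝ) ^ (t + K) := by positivity
      linarith
    have h2 : (t : ℝ) * (4 * C * d * ((t : ℝ) + 2) / (d : ℝ) ^ t) +
        C * ((2 * (t : ℝ) + 6) / (d : ℝ) ^ t) =
        (C * (4 * d * (t * (t + 2)) + (2 * (t : ℝ) + 6))) / (d : ℝ) ^ t := by ring
    have h3 : (C * (4 * d * (t * (t + 2)) + (2 * (t : ℝ) + 6))) / (d : ℝ) ^ t ≤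
        C * (4 * d + 2) * ((t : ℝ) + 3) ^ 2 / (d : ℝ) ^ t := by
      rw [mul_assoc C]
      have ht0 : (0 : ℝ) ≤ t := Nat.cast_nonneg t
      have h4 : 4 * (d : ℝ) * (t * (t + 2)) + (2 * (t : ℝ) + 6) ≤ (4 * d + 2) * ((t : ℝ) + 3) ^ 2 := by
        have h5 : (t : ℝ) * (t + 2) ≤ ((t : ℝ) + 3) ^ 2 := by nlinarith
        have h6 : 4 * (d : ℝ) * (t * (t + 2)) ≤ 4 * d * ((t : ℝ) + 3) ^ 2 := by gcongr
        nlinarith
      gcongr
    linarith
  refine le_trans ?_ hfin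
  apply Finset.sum_le_sum_of_subset_of_nonneg
  · intro k hk
    rw [Finset.mem_range] at hk ⊢
    have h1 : K < 2 ^ K := Nat.lt_two_pow_self
    have h2 : 2 ^ K ≤ d ^ K := Nat.pow_le_pow_left hd K
    have h3 : d ^ K ≤ d ^ (j + (t + K)) := Nat.pow_le_pow_right (by omega) (by omega)
    omega
  · intro k _ _
    positivity

theorem rl_pos (d l : ℕ) : 0 < rl d l := Real.exp_pos _

theorem rl_lt {d : ℕ} (hd : 2 ≤ d) (l : ℕ) : rl d l < 1 := by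
  unfold rl
  rw [Real.exp_lt_one_iff]
  have : (0 : ℝ) < (d : ℝ) ^ l := by
    have : (0 : ℝ) < d := by
      have : 0 < d := by omega
      exact_mod_cast this
    positivity
  have : 0 < 4 / (d : ℝ) ^ l := by positivity
  linarith

theorem cont_L {d : ℕ} {β : ℂ → ℂ} {L : ℕ → ℂ → ℂ} (hL : IsLog d β L) (n : ℕ) {ρ : ℝ} (h0 : 0 ≤ ρ)
    (h1 : ρ < 1) : Continuous fun θ : ℝ => L n (pt ρ θ) := by
  apply (hL.diff n).continuousOn.comp_continuous (continuous_circleMap 0 ρ)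
  intro θ
  rw [mem_ball_zero_iff]
  have := norm_pt ρ θ h0
  unfold pt at this
  rw [this]
  exact h1

theorem ms {d : ℕ} {β : ℂ → ℂ} {L : ℕ → ℂ → ℂ} (hd : 2 ≤ d) (hL : IsLog d β L) {C : ℝ} (hC : 0 ≤ C)
    (hb : ∀ n M : ℕ, ∑ k ∈ Finset.Ico (d ^ (n + M)) (d ^ (n + M + 1)), ‖tc (L n) k‖ ^ 2 ≤
      C * ((M : ℝ) + 2) / (d : ℝ) ^ M) (j t : ℕ) {ρ : ℝ} (hρ : rl d (j + t) ≤ ρ) (hρ1 : ρ < 1) :
    (2 * Real.pi)⁻¹ * ∫ θ in (0 : ℝ)..(2 * Real.pi),
      ‖L j (pt ρ θ) - L j (pt (rl d (j + t)) θ)‖ ^ 2 ≤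
      C * (4 * d + 2) * ((t : ℝ) + 3) ^ 2 / (d : ℝ) ^ t := by
  obtain ⟨r, hr⟩ : ∃ r : ℝ, r = rl d (j + t) := ⟨_, rfl⟩
  have hr0 : 0 < r := hr ▸ rl_pos d (j + t)
  rw [← hr] at hρ ⊢
  have hρ0 : 0 < ρ := by linarith
  obtain ⟨s, hs⟩ : ∃ s : ℝ, s = r / ρ := ⟨_, rfl⟩
  have hs0 : 0 ≤ s := hs ▸ by positivity
  have hs1 : s ≤ 1 := by rw [hs, div_le_one hρ0]; exact hρ
  have hsr : s * ρ = r := by rw [hs]; field_simp
  have hsum : ∀ z ∈ ball (0 : ℂ) 1, HasSum (fun k => tc (L j) k * (1 - (s : ℂ) ^ k) * z ^ k)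
      (L j z - L j (s * z)) := by
    intro z hz
    have hz' : (s : ℂ) * z ∈ ball (0 : ℂ) 1 := by
      rw [mem_ball_zero_iff] at hz ⊢
      rw [norm_mul, Complex.norm_real, Real.norm_of_nonneg hs0]
      have := norm_nonneg z
      nlinarith
    have h1 := (hasSum_tc (hL.diff j) hz).sub (hasSum_tc (hL.diff j) hz')
    refine h1.congr_fun fun k => ?_
    rw [mul_pow]
    ring
  have h1 := mean_sq hsum hρ0.le hρ1
  have e1 : ∀ θ : ℝ, (s : ℂ) * pt ρ θ = pt r θ := by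
    intro θ
    rw [pt_eq ρ, pt_eq r, ← mul_assoc, ← Complex.ofReal_mul, hsr]
  simp only [e1] at h1
  refine le_of_tendsto' h1.tendsto_sum_nat fun K => ?_
  have h2 := coef_bd (t := t) hd hC (a := tc (L j)) (w := fun k => ρ ^ k - r ^ k)
    (fun k hk => hL.van j k (by
      have : 2 * d ^ j ≤ d ^ (j + 1) := by
        rw [pow_succ, mul_comm]
        exact Nat.mul_le_mul_left _ hd
      have : 1 ≤ d ^ j := Nat.one_le_pow _ _ (by omega)
      omega)) (hb j)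
    (fun k => sub_nonneg.2 (pow_le_pow_left₀ hr0.le hρ k))
    (fun k => by
      have h3 : ρ ^ k ≤ 1 := pow_le_one₀ hρ0.le hρ1.le
      have h4 : 0 ≤ r ^ k := by positivity
      linarith)
    (fun k => by
      have h3 : ρ ^ k ≤ 1 := pow_le_one₀ hρ0.le hρ1.le
      have h4 : 1 - 4 * k / (d : ℝ) ^ (j + t) ≤ r ^ k := by
        rw [hr, rl, ← Real.exp_nat_mul]
        have := Real.add_one_le_exp ((k : ℝ) * -(4 / (d : ℝ) ^ (j + t)))
        refine le_trans (le_of_eq ?_) this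
        ring
      linarith) K
  refine le_trans (le_of_eq ?_) h2
  apply Finset.sum_congr rfl
  intro k _
  have h5 : ‖(1 : ℂ) - (s : ℂ) ^ k‖ = 1 - s ^ k := by
    rw [← Complex.ofReal_one, ← Complex.ofReal_pow, ← Complex.ofReal_sub, Complex.norm_real,
      Real.norm_of_nonneg (sub_nonneg.2 (pow_le_one₀ hs0 hs1))]
  have h6 : s ^ k * ρ ^ k = r ^ k := by rw [← mul_pow, hsr]
  rw [norm_mul, h5, ← h6, ← pow_mul, mul_comm 2 k, pow_mul]
  ring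

theorem geo (q l : ℕ) : ∑ i ∈ Finset.range l, (((q + 1 + i : ℕ) : ℝ) + 3) ^ 2 / 2 ^ (q + 1 + i) ≤
    ((q : ℝ) ^ 2 + 10 * q + 30) / 2 ^ q -
      (((q : ℝ) + l) ^ 2 + 10 * ((q : ℝ) + l) + 30) / 2 ^ (q + l) := by
  induction l with
  | zero => simp
  | succ l ih =>
    rw [Finset.sum_range_succ]
    have h1 : (((q + 1 + l : ℕ) : ℝ) + 3) ^ 2 / 2 ^ (q + 1 + l) ≤
        (((q : ℝ) + l) ^ 2 + 10 * ((q : ℝ) + l) + 30) / 2 ^ (q + l) -
        (((q : ℝ) + (l + 1 : ℕ)) ^ 2 + 10 * ((q : ℝ) + (l + 1 : ℕ)) + 30) / 2 ^ (q + (l + 1)) := by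
      rw [le_sub_iff_add_le]
      have e1 : q + 1 + l = q + l + 1 := by ring
      have e2 : q + (l + 1) = q + l + 1 := by ring
      rw [e1, e2, ← add_div, div_le_div_iff₀ (by positivity) (by positivity), pow_succ (2 : ℝ)]
      have h2 : (0 : ℝ) < 2 ^ (q + l) := by positivity
      have h3 : (0 : ℝ) ≤ q := Nat.cast_nonneg q
      have h4 : (0 : ℝ) ≤ l := Nat.cast_nonneg l
      push_cast
      have h5 : ((q : ℝ) + l + 1 + 3) ^ 2 + (((q : ℝ) + (l + 1)) ^ 2 +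
          10 * ((q : ℝ) + (l + 1)) + 30) ≤ (((q : ℝ) + l) ^ 2 + 10 * ((q : ℝ) + l) + 30) * 2 := by
        nlinarith
      calc _ ≤ ((((q : ℝ) + l) ^ 2 + 10 * ((q : ℝ) + l) + 30) * 2) * 2 ^ (q + l) := by gcongr
        _ = _ := by ring
    linarith

/-- the bound for the square mean -/
noncomputable def Bl (d : ℕ) (C : ℝ) (l : ℕ) : ℝ :=
  l * (C * (4 * d + 2) * (((qq l : ℝ) ^ 2 + 10 * qq l + 30) / 2 ^ qq l))

theorem Z_bd {d : ℕ} {β : ℂ → ℂ} {L : ℕ → ℂ → ℂ} (hd : 2 ≤ d) (hL : IsLog d β L) {C : ℝ}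
    (hC : 0 ≤ C)
    (hb : ∀ n M : ℕ, ∑ k ∈ Finset.Ico (d ^ (n + M)) (d ^ (n + M + 1)), ‖tc (L n) k‖ ^ 2 ≤
      C * ((M : ℝ) + 2) / (d : ℝ) ^ M) (l : ℕ) {ρ : ℝ} (hρ : rl d (l + qq l) ≤ ρ) (hρ1 : ρ < 1) :
    (2 * Real.pi)⁻¹ * ∫ θ in (0 : ℝ)..(2 * Real.pi),
      ‖∑ n ∈ Finset.range l, (L n (pt ρ θ) - L n (pt (rl d (l + qq l)) θ))‖ ^ 2 ≤ Bl d C l := by
  have hr0 := rl_pos d (l + qq l)
  have hr1 := rl_lt hd (l + qq l)
  have hρ0 : 0 ≤ ρ := by linarith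
  have hcont : ∀ n, Continuous fun θ : ℝ => L n (pt ρ θ) - L n (pt (rl d (l + qq l)) θ) := fun n =>
    (cont_L hL n hρ0 hρ1).sub (cont_L hL n hr0.le hr1)
  have h2pi : (0 : ℝ) ≤ (2 * Real.pi)⁻¹ := by positivity
  calc (2 * Real.pi)⁻¹ * ∫ θ in (0 : ℝ)..(2 * Real.pi),
        ‖∑ n ∈ Finset.range l, (L n (pt ρ θ) - L n (pt (rl d (l + qq l)) θ))‖ ^ 2 ≤
        (2 * Real.pi)⁻¹ * ∫ θ in (0 : ℝ)..(2 * Real.pi),
          l * ∑ n ∈ Finset.range l, ‖L n (pt ρ θ) - L n (pt (rl d (l + qq l)) θ)‖ ^ 2 := by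
        apply mul_le_mul_of_nonneg_left _ h2pi
        apply intervalIntegral.integral_mono_on (by positivity)
        · apply Continuous.intervalIntegrable
          exact (continuous_finset_sum _ fun n _ => hcont n).norm.pow 2
        · apply Continuous.intervalIntegrable
          exact continuous_const.mul (continuous_finset_sum _ fun n _ => (hcont n).norm.pow 2)
        · intro θ _
          calc ‖∑ n ∈ Finset.range l, (L n (pt ρ θ) - L n (pt (rl d (l + qq l)) θ))‖ ^ 2 ≤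
                (∑ n ∈ Finset.range l, ‖L n (pt ρ θ) - L n (pt (rl d (l + qq l)) θ)‖) ^ 2 :=
                pow_le_pow_left₀ (norm_nonneg _) (norm_sum_le _ _) 2
            _ ≤ _ := by
                have := sq_sum_le_card_mul_sum_sq (s := Finset.range l)
                  (f := fun n => ‖L n (pt ρ θ) - L n (pt (rl d (l + qq l)) θ)‖)
                rwa [Finset.card_range] at this
    _ = l * ∑ n ∈ Finset.range l, ((2 * Real.pi)⁻¹ * ∫ θ in (0 : ℝ)..(2 * Real.pi),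
          ‖L n (pt ρ θ) - L n (pt (rl d (l + qq l)) θ)‖ ^ 2) := by
        rw [intervalIntegral.integral_const_mul, intervalIntegral.integral_finset_sum]
        · rw [← Finset.mul_sum]
          ring
        · intro n _
          exact ((hcont n).norm.pow 2).intervalIntegrable _ _
    _ ≤ l * ∑ n ∈ Finset.range l, (C * (4 * d + 2) *
          ((((qq l + 1 + (l - 1 - n) : ℕ) : ℝ) + 3) ^ 2 / 2 ^ (qq l + 1 + (l - 1 - n)))) := by
        apply mul_le_mul_of_nonneg_left _ (Nat.cast_nonneg l)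
        apply Finset.sum_le_sum
        intro n hn
        rw [Finset.mem_range] at hn
        obtain ⟨t, ht⟩ : ∃ t, t = qq l + 1 + (l - 1 - n) := ⟨_, rfl⟩
        rw [← ht]
        have e : l + qq l = n + t := by omega
        rw [e] at hρ ⊢
        refine (ms hd hL hC hb n t hρ hρ1).trans ?_
        rw [mul_div_assoc]
        apply mul_le_mul_of_nonneg_left _ (by positivity)
        have h2d : (2 : ℝ) ≤ d := by exact_mod_cast hd
        have : (2 : ℝ) ^ t ≤ (d : ℝ) ^ t := pow_le_pow_left₀ (by norm_num) h2d t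
        gcongr
    _ = l * (C * (4 * d + 2) * ∑ n ∈ Finset.range l,
          ((((qq l + 1 + n : ℕ) : ℝ) + 3) ^ 2 / 2 ^ (qq l + 1 + n))) := by
        rw [← Finset.mul_sum]
        congr 2
        exact Finset.sum_range_reflect
          (fun n => (((qq l + 1 + n : ℕ) : ℝ) + 3) ^ 2 / 2 ^ (qq l + 1 + n)) l
    _ ≤ Bl d C l := by
        unfold Bl
        apply mul_le_mul_of_nonneg_left _ (Nat.cast_nonneg l)
        apply mul_le_mul_of_nonneg_left _ (by positivity)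
        refine (geo (qq l) l).trans ?_
        have : 0 ≤ (((qq l : ℝ) + l) ^ 2 + 10 * ((qq l : ℝ) + l) + 30) / 2 ^ (qq l + l) := by
          positivity
        linarith

theorem Bl_nonneg (d : ℕ) {C : ℝ} (hC : 0 ≤ C) (l : ℕ) : 0 ≤ Bl d C l := by
  unfold Bl
  positivity

theorem Bl_summable (d : ℕ) {C : ℝ} (hC : 0 ≤ C) : Summable (Bl d C) := by
  have h1 : Summable (fun l : ℕ => (C * (4 * d + 2) * 1950) * ((l + 1 : ℕ) : ℝ) ^ (-(7 / 4) : ℝ)) :=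
    ((summable_nat_add_iff 1).2 (Real.summable_nat_rpow.2 (by norm_num))).mul_left _
  refine Summable.of_nonneg_of_le (Bl_nonneg d hC) (fun l => ?_) h1
  obtain ⟨x, hx⟩ : ∃ x : ℝ, x = ((l + 1 : ℕ) : ℝ) := ⟨_, rfl⟩
  have hx1 : 1 ≤ x := by
    rw [hx]
    exact_mod_cast Nat.succ_le_succ (Nat.zero_le l)
  have hx0 : 0 < x := by linarith
  obtain ⟨y, hy⟩ : ∃ y : ℝ, y = x ^ (1 / 8 : ℝ) := ⟨_, rfl⟩
  have hy1 : 1 ≤ y := hy ▸ Real.one_le_rpow hx1 (by norm_num)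
  have hlog : Real.log x ≤ 8 * y := by
    have := Real.log_le_rpow_div hx0.le (ε := 1 / 8) (by norm_num)
    rw [← hy] at this
    linarith
  have hnl : (Nat.log 2 (l + 1) : ℝ) ≤ 12 * y := by
    have h2 : (Nat.log 2 (l + 1) : ℝ) ≤ Real.logb 2 ((l + 1 : ℕ) : ℝ) := by
      have := Real.natLog_le_logb (l + 1) 2
      exact_mod_cast this
    rw [← hx, Real.logb] at h2
    refine h2.trans ?_
    rw [div_le_iff₀ (Real.log_pos (by norm_num))]
    have := Real.log_two_gt_d9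
    nlinarith
  have hq : (qq l : ℝ) ≤ 39 * y := by
    unfold qq
    push_cast
    linarith
  have hq0 : (0 : ℝ) ≤ qq l := Nat.cast_nonneg _
  have hpow : x ^ 3 ≤ 2 ^ qq l := by
    unfold qq
    rw [mul_comm 3, pow_mul]
    apply pow_le_pow_left₀ hx0.le
    rw [hx]
    have := (Nat.lt_pow_succ_log_self (b := 2) (by norm_num) (l + 1)).le
    exact_mod_cast this
  have hpoly : (qq l : ℝ) ^ 2 + 10 * qq l + 30 ≤ 1950 * y ^ 2 := by
    have h3 : (qq l : ℝ) ^ 2 ≤ (39 * y) ^ 2 := pow_le_pow_left₀ hq0 hq 2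
    nlinarith
  have hlx : (l : ℝ) ≤ x := by
    rw [hx]
    push_cast
    linarith
  have hyx : x * (y ^ 2 / x ^ 3) = x ^ (-(7 / 4) : ℝ) := by
    have h4 : y ^ 2 = x ^ (1 / 4 : ℝ) := by
      rw [hy, ← Real.rpow_natCast, ← Real.rpow_mul hx0.le]
      norm_num
    rw [h4, ← Real.rpow_natCast x 3, ← Real.rpow_sub hx0]
    nth_rewrite 1 [← Real.rpow_one x]
    rw [← Real.rpow_add hx0]
    norm_num
  unfold Bl
  rw [← hx]
  calc (l : ℝ) * (C * (4 * d + 2) * (((qq l : ℝ) ^ 2 + 10 * qq l + 30) / 2 ^ qq l)) ≤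
        x * (C * (4 * d + 2) * ((1950 * y ^ 2) / x ^ 3)) := by gcongr
    _ = (C * (4 * d + 2) * 1950) * (x * (y ^ 2 / x ^ 3)) := by ring
    _ = _ := by rw [hyx]

/-- the high frequency part -/
noncomputable def ZZ (L : ℕ → ℂ → ℂ) (d l : ℕ) (ρ θ : ℝ) : ℂ :=
  ∑ n ∈ Finset.range l, (L n (pt ρ θ) - L n (pt (rl d (l + qq l)) θ))

theorem cont_ZZ {d : ℕ} {β : ℂ → ℂ} {L : ℕ → ℂ → ℂ} (hd : 2 ≤ d) (hL : IsLog d β L) (l : ℕ) {ρ : ℝ}
    (h0 : 0 ≤ ρ) (h1 : ρ < 1) : Continuous fun θ : ℝ => ZZ L d l ρ θ :=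
  continuous_finsetSum _ fun n _ =>
    (cont_L hL n h0 h1).sub (cont_L hL n (rl_pos d (l + qq l)).le (rl_lt hd (l + qq l)))

theorem lint {d : ℕ} {β : ℂ → ℂ} {L : ℕ → ℂ → ℂ} (hd : 2 ≤ d) (hL : IsLog d β L) {C : ℝ}
    (hC : 0 ≤ C)
    (hb : ∀ n M : ℕ, ∑ k ∈ Finset.Ico (d ^ (n + M)) (d ^ (n + M + 1)), ‖tc (L n) k‖ ^ 2 ≤
      C * ((M : ℝ) + 2) / (d : ℝ) ^ M) (l : ℕ) {ρ : ℝ} (hρ : rl d (l + qq l) ≤ ρ) (hρ1 : ρ < 1) :
    ∫⁻ θ in Set.Ioc 0 (2 * Real.pi), ENNReal.ofReal (‖ZZ L d l ρ θ‖ ^ 2) ≤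
      ENNReal.ofReal (2 * Real.pi * Bl d C l) := by
  have h2 := Real.two_pi_pos
  have hρ0 : 0 ≤ ρ := (rl_pos d (l + qq l)).le.trans hρ
  have hcont : Continuous fun θ : ℝ => ‖ZZ L d l ρ θ‖ ^ 2 := (cont_ZZ hd hL l hρ0 hρ1).norm.pow 2
  rw [← ofReal_integral_eq_lintegral_ofReal
    ((intervalIntegrable_iff_integrableOn_Ioc_of_le h2.le).1 (hcont.intervalIntegrable _ _))
    (Eventually.of_forall fun θ => by positivity)]
  apply ENNReal.ofReal_le_ofReal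
  rw [← intervalIntegral.integral_of_le h2.le]
  have h3 := Z_bd hd hL hC hb l hρ hρ1
  have h4 : (2 * Real.pi)⁻¹ * ∫ θ in (0 : ℝ)..(2 * Real.pi), ‖ZZ L d l ρ θ‖ ^ 2 ≤ Bl d C l := h3
  rwa [inv_mul_le_iff₀ h2] at h4

/-- radii tending to one -/
noncomputable def ro (i : ℕ) : ℝ := 1 - 1 / ((i : ℝ) + 2)

theorem ro_pos (i : ℕ) : 0 < ro i := by
  unfold ro
  have h1 : (0 : ℝ) ≤ i := Nat.cast_nonneg i
  rw [sub_pos, div_lt_one (by linarith)]
  linarith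

theorem ro_lt (i : ℕ) : ro i < 1 := by
  unfold ro
  have h1 : (0 : ℝ) ≤ i := Nat.cast_nonneg i
  have : 0 < 1 / ((i : ℝ) + 2) := by positivity
  linarith

theorem ro_tendsto : Tendsto ro atTop (𝓝[<] 1) := by
  refine tendsto_nhdsWithin_iff.2 ⟨?_, Eventually.of_forall fun i => ro_lt i⟩
  have h1 : Tendsto (fun i : ℕ => 1 - 1 / ((i : ℝ) + 2)) atTop (𝓝 (1 - 0)) := by
    apply Tendsto.const_sub
    exact tendsto_const_nhds.div_atTop (tendsto_atTop_add_const_right _ _ tendsto_natCast_atTop_atTop)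
  rwa [sub_zero] at h1

/-- the square function -/
noncomputable def FF (L : ℕ → ℂ → ℂ) (d : ℕ) (i : ℕ) (θ : ℝ) : ENNReal :=
  open Classical in
  ∑' l : ℕ, if rl d (l + qq l) ≤ ro i then ENNReal.ofReal (‖ZZ L d l (ro i) θ‖ ^ 2) else 0

theorem FF_meas {d : ℕ} {β : ℂ → ℂ} {L : ℕ → ℂ → ℂ} (hd : 2 ≤ d) (hL : IsLog d β L) (i : ℕ) :
    Measurable (FF L d i) := by
  classical
  unfold FF
  apply Measurable.ennreal_tsum
  intro l
  by_cases h : rl d (l + qq l) ≤ ro i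
  · simp only [h, if_true]
    exact ENNReal.measurable_ofReal.comp
      ((cont_ZZ hd hL l (ro_pos i).le (ro_lt i)).norm.pow 2).measurable
  · simp only [h, if_false]
    exact measurable_const

theorem FF_int {d : ℕ} {β : ℂ → ℂ} {L : ℕ → ℂ → ℂ} (hd : 2 ≤ d) (hL : IsLog d β L) {C : ℝ}
    (hC : 0 ≤ C)
    (hb : ∀ n M : ℕ, ∑ k ∈ Finset.Ico (d ^ (n + M)) (d ^ (n + M + 1)), ‖tc (L n) k‖ ^ 2 ≤
      C * ((M : ℝ) + 2) / (d : ℝ) ^ M) (i : ℕ) :
    ∫⁻ θ in Set.Ioc 0 (2 * Real.pi), FF L d i θ ≤ ∑' l : ℕ, ENNReal.ofReal (2 * Real.pi * Bl d C l) := by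
  classical
  unfold FF
  rw [lintegral_tsum]
  · apply ENNReal.tsum_le_tsum
    intro l
    by_cases h : rl d (l + qq l) ≤ ro i
    · simp only [h, if_true]
      exact lint hd hL hC hb l h (ro_lt i)
    · simp only [h, if_false, lintegral_zero]
      exact zero_le
  · intro l
    by_cases h : rl d (l + qq l) ≤ ro i
    · simp only [h, if_true]
      exact (ENNReal.measurable_ofReal.comp
        ((cont_ZZ hd hL l (ro_pos i).le (ro_lt i)).norm.pow 2).measurable).aemeasurable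
    · simp only [h, if_false]
      exact aemeasurable_const

theorem sum_fin (d : ℕ) {C : ℝ} (hC : 0 ≤ C) :
    ∑' l : ℕ, ENNReal.ofReal (2 * Real.pi * Bl d C l) ≠ ⊤ := by
  have h := ((Bl_summable d hC).mul_left (2 * Real.pi))
  rw [← ENNReal.ofReal_tsum_of_nonneg
    (fun l => mul_nonneg Real.two_pi_pos.le (Bl_nonneg d hC l)) h]
  exact ENNReal.ofReal_ne_top

theorem cont_P (d n : ℕ) : Continuous fun c : ℂ => P d n c := by
  have : (fun c : ℂ => P d n c) = fun c => (PP d n).eval c := funext fun c => (eval_PP d n c).symm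
  rw [this]
  exact (PP d n).continuous

theorem re_L {d : ℕ} {β : ℂ → ℂ} {L : ℕ → ℂ → ℂ} (hd : 2 ≤ d) (hL : IsLog d β L) (n : ℕ) {ρ : ℝ}
    (h0 : 0 < ρ) (h1 : ρ < 1) (θ : ℝ) :
    (L n (pt ρ θ)).re = Real.log (ρ ^ (d ^ n) * ‖P d (n + 1) (cc β (pt ρ θ))‖) := by
  have hn : ‖pt ρ θ‖ = ρ := norm_pt ρ θ h0.le
  have hx : pt ρ θ ≠ 0 := by
    rw [← norm_pos_iff, hn]
    exact h0
  have hmem : pt ρ θ ∈ ball (0 : ℂ) 1 := by
    rw [mem_ball_zero_iff, hn]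
    exact h1
  have h2 := hL.exp n _ hmem
  rw [BB_eq hd β n _ hx] at h2
  have h3 := congrArg norm h2
  rw [Complex.norm_exp, norm_mul, norm_pow, hn] at h3
  rw [show P d (n + 1) (cc β (pt ρ θ)) = P d (n + 1) ((pt ρ θ)⁻¹ * β (pt ρ θ)) from rfl, ← h3,
    Real.log_exp]

theorem lim_re {d : ℕ} {β : ℂ → ℂ} {L : ℕ → ℂ → ℂ} (hd : 2 ≤ d) (hL : IsLog d β L) (n : ℕ)
    {θ : ℝ} {c0 : ℂ} (hc : Tendsto (fun ρ : ℝ => cc β (pt ρ θ)) (𝓝[<] 1) (𝓝 c0))
    (hP : P d (n + 1) c0 ≠ 0) :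
    Tendsto (fun i : ℕ => (L n (pt (ro i) θ)).re) atTop (𝓝 (Real.log ‖P d (n + 1) c0‖)) := by
  have e : (fun i : ℕ => (L n (pt (ro i) θ)).re) =
      fun i => Real.log (ro i ^ (d ^ n) * ‖P d (n + 1) (cc β (pt (ro i) θ))‖) :=
    funext fun i => re_L hd hL n (ro_pos i) (ro_lt i) θ
  rw [e]
  apply Tendsto.log _ (norm_ne_zero_iff.2 hP)
  have h1 : Tendsto (fun i => ro i ^ (d ^ n)) atTop (𝓝 (1 ^ (d ^ n))) :=
    (ro_tendsto.mono_right nhdsWithin_le_nhds).pow _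
  have h2 : Tendsto (fun i => ‖P d (n + 1) (cc β (pt (ro i) θ))‖) atTop (𝓝 ‖P d (n + 1) c0‖) :=
    (((cont_P d (n + 1)).tendsto c0).comp (hc.comp ro_tendsto)).norm
  simpa using h1.mul h2

/-- job HF -/
theorem t (hCoef : St_Coef) : St_HF := by
  intro d β L hd hβ hL
  obtain ⟨C, hC, hCf⟩ := hCoef d hd
  have hb : ∀ n M : ℕ, ∑ k ∈ Finset.Ico (d ^ (n + M)) (d ^ (n + M + 1)), ‖tc (L n) k‖ ^ 2 ≤
      C * ((M : ℝ) + 2) / (d : ℝ) ^ M := by
    intro n M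
    have h := hCf β L hβ hL n M 0 (L n) le_rfl zero_le_one (hL.diff n) (fun x _ => by simp)
    simpa using h
  apply ae_per (Q := fun θ => ∀ c0 : ℂ, Tendsto (fun ρ : ℝ => cc β (pt ρ θ)) (𝓝[<] 1) (𝓝 c0) →
    (∀ n : ℕ, P d (n + 1) c0 ≠ 0) →
    ∃ A : ℝ, ∀ l : ℕ, |∑ n ∈ Finset.range l,
      (Real.log ‖P d (n + 1) c0‖ - (L n (pt (rl d (l + qq l)) θ)).re)| ≤ A)
  · intro θ m h
    simpa only [pt_per] using h
  have hfat : ∫⁻ θ in Set.Ioc 0 (2 * Real.pi), liminf (fun i => FF L d i θ) atTop ≤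
      ∑' l : ℕ, ENNReal.ofReal (2 * Real.pi * Bl d C l) := by
    refine (lintegral_liminf_le fun i => FF_meas hd hL i).trans ?_
    refine (liminf_le_liminf (Eventually.of_forall fun i => FF_int hd hL hC hb i)).trans ?_
    rw [liminf_const]
  have hlt := ae_lt_top (Measurable.liminf fun i => FF_meas hd hL i)
    (ne_top_of_le_ne_top (sum_fin d hC) hfat)
  filter_upwards [hlt] with θ hθ c0 hc hP
  obtain ⟨Q, hQ⟩ : ∃ Q, Q = liminf (fun i => FF L d i θ) atTop := ⟨_, rfl⟩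
  rw [← hQ] at hθ
  refine ⟨√Q.toReal, fun l => ?_⟩
  obtain ⟨S, hS⟩ : ∃ S : ℝ, S = ∑ n ∈ Finset.range l,
      (Real.log ‖P d (n + 1) c0‖ - (L n (pt (rl d (l + qq l)) θ)).re) := ⟨_, rfl⟩
  rw [← hS]
  have hlim : Tendsto (fun i => (ZZ L d l (ro i) θ).re) atTop (𝓝 S) := by
    have e : (fun i => (ZZ L d l (ro i) θ).re) = fun i => ∑ n ∈ Finset.range l,
        ((L n (pt (ro i) θ)).re - (L n (pt (rl d (l + qq l)) θ)).re) := by
      funext i
      unfold ZZ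
      rw [Complex.re_sum]
      simp
    rw [e, hS]
    exact tendsto_finset_sum _ fun n _ => (lim_re hd hL n hc (hP n)).sub_const _
  have hlim2 : Tendsto (fun i => ENNReal.ofReal ((ZZ L d l (ro i) θ).re ^ 2)) atTop
      (𝓝 (ENNReal.ofReal (S ^ 2))) := ENNReal.tendsto_ofReal (hlim.pow 2)
  have hev : ∀ᶠ i in atTop, ENNReal.ofReal ((ZZ L d l (ro i) θ).re ^ 2) ≤ FF L d i θ := by
    have h0 : Tendsto ro atTop (𝓝 1) := ro_tendsto.mono_right nhdsWithin_le_nhds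
    have h1 : ∀ᶠ i in atTop, rl d (l + qq l) < ro i :=
      h0.eventually (lt_mem_nhds (rl_lt hd (l + qq l)))
    filter_upwards [h1] with i hi'
    have hi := hi'.le
    classical
    unfold FF
    refine le_trans ?_ (ENNReal.le_tsum l)
    rw [if_pos hi]
    apply ENNReal.ofReal_le_ofReal
    rw [sq_le_sq, abs_of_nonneg (norm_nonneg _)]
    exact Complex.abs_re_le_norm _
  have hle : ENNReal.ofReal (S ^ 2) ≤ Q := by
    rw [hQ, ← hlim2.liminf_eq]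
    exact liminf_le_liminf hev
  have h3 : S ^ 2 ≤ Q.toReal := by
    rw [← ENNReal.toReal_ofReal (sq_nonneg S)]
    exact ENNReal.toReal_mono hθ.ne hle
  exact Real.abs_le_sqrt h3

end Pool.Agent.Y571.TY.HF
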